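import Pool.Agent.H39.HDS.BCSa

/-!
# hds_modules, row BCS: localized sub-sums satisfy the condition of back projection
-/

set_option autoImplicit false

namespace Pool.Agent.H39.HDS

open MeasureTheory Set
open Pool.Agent.H83.G Pool.Agent.H82.HD
open Pool.Agent.H22.G (co)
open scoped ENNReal NNReal RealInnerProductSpace

variable {m : ℕ}

theorem cover_om {T ρ t s Cb : ℝ} {z₁ : Z m} {p : ℝ × E m} {c : E m} (hBPG : T_BPG)
    (hb1 : ∀ z : Z m, ‖bp c z‖ ≤ Cb * ‖z‖) (hCb : 0 ≤ Cb) (hs : s = sR ρ) (hρ1 : t ≤ ρ)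
    (hRT' : t ≤ T * s) :
    ∀ z ∈ Om T ρ c z₁ p, ∀ x, ‖z - x‖ ≤ t →
      x ∈ {x : Z m | ‖x - z₁‖ ≤ 2 * ρ ∧ ‖bp c x - p‖ ≤ (1 + Cb) * (T * s)} := by
  obtain ⟨lin, -, -, -, -⟩ := hBPG m
  intro z hz x hx
  obtain ⟨hz1, hz2⟩ := hz
  rw [← hs] at hz2
  refine ⟨?_, ?_⟩
  · have : x - z₁ = (z - z₁) - (z - x) := by abel
    rw [this]
    refine (norm_sub_le _ _).trans ?_
    linarith
  · have h1 : bp c x = bp c z - bp c (z - x) := by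
      rw [(lin _ z x).2]
      abel
    have h2 : bp c x - p = (bp c z - p) - bp c (z - x) := by
      rw [h1]
      abel
    rw [h2]
    refine (norm_sub_le _ _).trans ?_
    have h3 : ‖bp c (z - x)‖ ≤ Cb * (T * s) := by
      refine (hb1 (z - x)).trans ?_
      exact mul_le_mul_of_nonneg_left (hx.trans hRT') hCb
    linarith

theorem vol_step {q B : ℝ} {Y : ℝ≥0∞} (hq : 0 < q)
    (h : volume (Metric.closedBall (0 : Z m) q) * Y ≤ ENNReal.ofReal (B * q ^ (m + 2))) :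
    Y ≤ ENNReal.ofReal (B / (volume (Metric.closedBall (0 : Z m) 1)).toReal) := by
  have := haar_Z m
  have hΩ0 : volume (Metric.closedBall (0 : Z m) 1) ≠ 0 :=
    (Metric.measure_closedBall_pos volume _ one_pos).ne'
  have hΩt : volume (Metric.closedBall (0 : Z m) 1) ≠ ⊤ := measure_closedBall_lt_top.ne
  rw [vol_cb hq.le, ← ENNReal.ofReal_toReal hΩt] at h
  exact cancel (pow_pos hq _) (ENNReal.toReal_pos hΩ0 hΩt) h

theorem last_int {C0 P M KX Cw q : ℝ} {W : Z m → ℝ≥0∞} {Φ Φ' : Z m → ℝ≥0∞} {w : Z m → ℝ}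
    (hC0 : 0 ≤ C0 * P) (hM : 0 ≤ M) (hKX : 0 ≤ KX) (hCw : 0 ≤ Cw) (hw : Continuous w)
    (h1 : ∀ v, Φ v ≤ ENNReal.ofReal M * Φ' v)
    (h2 : ∀ v, W v * Φ' v ≤ ENNReal.ofReal KX * ENNReal.ofReal (w v))
    (h3 : ∫⁻ v, ENNReal.ofReal (w v) ≤ ENNReal.ofReal Cw * ENNReal.ofReal q) :
    ENNReal.ofReal (C0 * P) * ∫⁻ v, W v * Φ v ≤
      ENNReal.ofReal ((C0 * P) * (M * KX * Cw) * q) := by
  have h4 : ∀ v, W v * Φ v ≤ (ENNReal.ofReal M * ENNReal.ofReal KX) * ENNReal.ofReal (w v) := by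
    intro v
    calc W v * Φ v ≤ W v * (ENNReal.ofReal M * Φ' v) := mul_le_mul' le_rfl (h1 v)
      _ = ENNReal.ofReal M * (W v * Φ' v) := by ring
      _ ≤ ENNReal.ofReal M * (ENNReal.ofReal KX * ENNReal.ofReal (w v)) :=
          mul_le_mul' le_rfl (h2 v)
      _ = _ := by ring
  have h5 := lintegral_mono (μ := (volume : Measure (Z m))) h4
  have h6 : Measurable fun v => ENNReal.ofReal (w v) :=
    (ENNReal.continuous_ofReal.comp hw).measurable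
  rw [lintegral_const_mul _ h6] at h5
  refine (mul_le_mul' le_rfl (h5.trans (mul_le_mul' le_rfl h3))).trans (le_of_eq ?_)
  have e1 : ENNReal.ofReal ((C0 * P) * (M * KX * Cw) * q) = ENNReal.ofReal (C0 * P) *
      (ENNReal.ofReal M * ENNReal.ofReal KX * ENNReal.ofReal Cw) * ENNReal.ofReal q := by
    rw [ENNReal.ofReal_mul (p := (C0 * P) * (M * KX * Cw)) (mul_nonneg hC0
      (mul_nonneg (mul_nonneg hM hKX) hCw)), ENNReal.ofReal_mul (p := C0 * P) hC0,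
      ENNReal.ofReal_mul (p := M * KX) (mul_nonneg hM hKX), ENNReal.ofReal_mul hM]
  rw [e1]
  ring

theorem pf_BCS (hBCS1 : T_BCS1) (hCVR : T_CVR) (hBPG : T_BPG) (hCLR : T_CLR) (hWT1 : T_WT1)
    (hWT2 : T_WT2) (hWT3 : T_WT3) (hPUS : T_PUS) (hSCH : T_SCH) (hCPS : T_CPS) : T_BCS := by
  intro m L β Ψ Ξ ψ χ δ ε₀ δ' hβ hΨ hΞ hδ hδ4 hδε hε2 hδ'
  have := haar_Z m
  obtain ⟨-, -, -, -, hD⟩ := hBPG m
  obtain ⟨-, -, Cp, hCp, -, hcard, hnorm⟩ := hPUS m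
  obtain ⟨Cb, hCb, hb1, hb2⟩ := hD Cp hCp.le
  have hb1' : ∀ (η : E m) (z : Z m), ‖η‖ ≤ Cp → ‖bp η z‖ ≤ Cb * ‖z‖ := fun η z h => (hb1 η z h).1
  have hb2' : ∀ (η η' : E m) (z : Z m), ‖η‖ ≤ Cp → ‖η'‖ ≤ Cp →
      ‖bp η z - bp η' z‖ ≤ Cb * |tm z| * ‖η - η'‖ := fun η η' z h h' => (hb2 η η' z h h').1
  clear hb1 hb2 hD
  obtain ⟨Cv, hCv, hcvr⟩ := hCVR m
  obtain ⟨Cl, hCl, hclr⟩ := hCLR m L β 1 (max Cp 1) hβ one_pos (le_max_right _ _)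
  obtain ⟨n₁, hn₁⟩ : ∃ n₁ : ℕ, ((m : ℝ) + 6) / δ ≤ n₁ := exists_nat_ge _
  obtain ⟨C0, hC0, hbcs⟩ := hBCS1 m ((m + 3) + (2 * m + 3) + n₁) β Ψ Ξ ψ χ δ δ' hβ hΨ hΞ hδ hδ4
    hδ' (by omega)
  obtain ⟨Cw, hCw, -, -⟩ := hWT2 m (m + 3) le_rfl
  obtain ⟨-, wcont, -⟩ := hWT1 m ((m + 3) + (2 * m + 3) + n₁)
  obtain ⟨-, wcont3, -⟩ := hWT1 m (m + 3)
  have hC₂50 : 50 ≤ 50 * Cb := by linarith
  obtain ⟨C₂, hC₂⟩ : ∃ C₂ : ℝ, C₂ = 50 * Cb := ⟨_, rfl⟩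
  rw [← hC₂] at hC₂50
  have hC₂1 : 1 ≤ C₂ := by linarith
  obtain ⟨ω, hω⟩ : ∃ ω : ℝ, ω = (volume (Metric.closedBall (0 : Z m) 1)).toReal := ⟨_, rfl⟩
  have hω0 : 0 < ω := by
    rw [hω]
    exact ENNReal.toReal_pos (Metric.measure_closedBall_pos volume _ one_pos).ne'
      measure_closedBall_lt_top.ne
  obtain ⟨M, hM⟩ : ∃ M : ℝ, M = Cp * 7 ^ m := ⟨_, rfl⟩
  have hM0 : 0 < M := by
    rw [hM]
    positivity
  obtain ⟨K, hK⟩ : ∃ K : ℝ, K = Cv * C₂ ^ (2 * m + 3) + Cl * (C₂ + 1) ^ (m + 2) := ⟨_, rfl⟩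
  have hK0 : 0 < K := by
    rw [hK]
    positivity
  obtain ⟨Kf, hKf⟩ : ∃ Kf : ℝ, Kf = C0 * M * K * Cw / ω := ⟨_, rfl⟩
  have hKf0 : 0 ≤ Kf := by
    rw [hKf]
    positivity
  refine ⟨(C0 + Kf) + (8 * C₂ + 2), by linarith, ?_⟩
  intro κ R T A ρ G G' S w z₁ p hκ hκ1 hR hCR hRT hA hcls hbc hS hG' hTF hρ1 hρ2 ht1 ht2
  have hR0 : 0 < R := by linarith
  have hT0 : 0 < T := by linarith
  have hsR1 : 1 ≤ Real.sqrt R := Real.one_le_sqrt.mpr hR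
  have hsR0 : 0 < Real.sqrt R := by linarith
  have hρ : 1 ≤ ρ := hsR1.trans hρ1
  have hρ0 : 0 < ρ := by linarith
  have hrR : R ^ (1 - ε₀) ≤ R := by
    calc R ^ (1 - ε₀) ≤ R ^ (1 : ℝ) := Real.rpow_le_rpow_of_exponent_le hR (by linarith)
      _ = R := Real.rpow_one R
  have hρR : ρ ≤ R := hρ2.trans hrR
  have hsρ1 : 1 ≤ Real.sqrt ρ := Real.one_le_sqrt.mpr hρ
  have hsρ0 : 0 < Real.sqrt ρ := by linarith
  have hsρR : Real.sqrt ρ ≤ Real.sqrt R := Real.sqrt_le_sqrt hρR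
  have hs0 : 0 < sR ρ := inv_pos.mpr hsρ0
  have hs1 : sR ρ ≤ 1 := inv_le_one_of_one_le₀ hsρ1
  have hRT' : Real.sqrt R ≤ T * sR ρ := by
    unfold sR
    rw [← div_eq_mul_inv, le_div_iff₀ hsρ0]
    calc Real.sqrt R * Real.sqrt ρ ≤ Real.sqrt R * Real.sqrt R := by gcongr
      _ = R := Real.mul_self_sqrt hR0.le
      _ ≤ T := hRT
  have hC0R : C0 ≤ R ^ δ := by linarith
  have hRδ0 : 0 < R ^ (-δ) := Real.rpow_pos_of_pos hR0 _
  have hTC : TC G := hcls.1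
  have hsupp : ∀ ζ, G ζ ≠ 0 → ζ ∈ Rg m κ R⁻¹ := hcls.2.1
  have hβc : Continuous β := hβ.1.continuous
  have hcn : ∀ k ∈ Ks m (sR ρ), ‖(ctr (sR ρ) k : E m)‖ ≤ Cp := fun k hk => hnorm _ _ hs0 hs1 hk
  have hgm : ∀ k : Fin m → ℤ, Measurable fun z => ‖TP β (ctr (sR ρ) k) (sR ρ) G z‖ₑ ^ 2 :=
    fun k => meas_TP hβc _ _ hTC.1.continuous
  have hgm' : ∀ k : Fin m → ℤ, Measurable fun z => ‖TP β (ctr (sR ρ) k) (sR ρ) G' z‖ₑ ^ 2 :=
    fun k => meas_TP hβc _ _ hG'.1.continuous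
  have htm4 : |tm z₁| ≤ 4 * T := tm_four hT0 (by positivity) ht1 ht2
  have hWm : Measurable fun v : Z m =>
      ENNReal.ofReal (wt ((m + 3) + (2 * m + 3) + n₁) ((Real.sqrt R)⁻¹ • v)) :=
    (ENNReal.continuous_ofReal.comp (wcont.comp (continuous_const_smul _))).measurable
  -- step 1 and 2
  have step2 := step_two (m := m) (Ks m (sR ρ))
    (fun k' => (Ks m (sR ρ)).filter (fun k => ‖(ctr (sR ρ) k : E m) - ctr (sR ρ) k'‖ ≤ 6 * sR ρ))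
    (W := fun v : Z m =>
      ENNReal.ofReal (wt ((m + 3) + (2 * m + 3) + n₁) ((Real.sqrt R)⁻¹ • v)))
    (H := fun k' k v => ∫⁻ x in {x : Z m | ‖x - z₁‖ ≤ 2 * ρ ∧
      ‖bp (ctr (sR ρ) k') x - p‖ ≤ (1 + Cb) * (T * sR ρ)},
      ‖TP β (ctr (sR ρ) k) (sR ρ) G (x + v)‖ₑ ^ 2) hWm
    (fun k' k => Measurable.lintegral_prod_right'
      (f := fun q : Z m × Z m => ‖TP β (ctr (sR ρ) k) (sR ρ) G (q.2 + q.1)‖ₑ ^ 2)
      ((hgm k).comp (measurable_snd.add measurable_fst)))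
    (ENNReal.ofReal (C0 * R ^ δ')) (volume (Metric.closedBall (0 : Z m) (Real.sqrt R)))
    (fun k' => ∫⁻ z in Om T ρ (ctr (sR ρ) k') z₁ p,
      ‖TP β (ctr (sR ρ) k') (sR ρ) G' z‖ₑ ^ 2) (by
    intro k' hk'
    refine step_one (hgm' k') hgm hWm (meas_V _ _ _ _ _) (meas_V _ _ _ _ _)
      (cover_om hBPG (fun z => hb1' _ z (hcn k' hk')) (by linarith) rfl hρ1 hRT') _ _ ?_
    intro x
    refine hbcs κ R (R ^ (1 - ε₀)) ρ G G' S w x k' hκ hκ1 hR hC0R ?_ ?_ hρ hρR hTC hsupp hS hG'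
      hTF
    · rw [Real.sqrt_eq_rpow]
      exact Real.rpow_le_rpow_of_exponent_le hR (by linarith)
    · rw [le_div_iff₀ (by linarith)]
      calc R ^ (1 - ε₀) * C0 ≤ R ^ (1 - ε₀) * R ^ ε₀ := by
            refine mul_le_mul_of_nonneg_left ?_ (by positivity)
            exact hC0R.trans (Real.rpow_le_rpow_of_exponent_le hR (by linarith))
        _ = R := by
            rw [← Real.rpow_add hR0, sub_add_cancel, Real.rpow_one])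
  -- step 3
  have step3 : ∀ v : Z m, ∑ k' ∈ Ks m (sR ρ), ∑ k ∈ (Ks m (sR ρ)).filter
      (fun k => ‖(ctr (sR ρ) k : E m) - ctr (sR ρ) k'‖ ≤ 6 * sR ρ),
      ∫⁻ x in {x : Z m | ‖x - z₁‖ ≤ 2 * ρ ∧
        ‖bp (ctr (sR ρ) k') x - p‖ ≤ (1 + Cb) * (T * sR ρ)},
      ‖TP β (ctr (sR ρ) k) (sR ρ) G (x + v)‖ₑ ^ 2 ≤
      ENNReal.ofReal M * ∑ k ∈ Ks m (sR ρ), ∫⁻ z in {z : Z m | ‖z - (z₁ + v)‖ ≤
        C₂ * (1 + ‖(Real.sqrt R)⁻¹ • v‖) * ρ ∧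
        ‖bp (ctr (sR ρ) k) z - p‖ ≤ C₂ * (1 + ‖(Real.sqrt R)⁻¹ • v‖) * (T * sR ρ)},
        ‖TP β (ctr (sR ρ) k) (sR ρ) G z‖ₑ ^ 2 := by
    intro v
    have hin : ∀ k' ∈ Ks m (sR ρ), ∀ k ∈ (Ks m (sR ρ)).filter
        (fun k => ‖(ctr (sR ρ) k : E m) - ctr (sR ρ) k'‖ ≤ 6 * sR ρ),
        ∫⁻ x in {x : Z m | ‖x - z₁‖ ≤ 2 * ρ ∧
          ‖bp (ctr (sR ρ) k') x - p‖ ≤ (1 + Cb) * (T * sR ρ)},
          ‖TP β (ctr (sR ρ) k) (sR ρ) G (x + v)‖ₑ ^ 2 ≤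
        ∫⁻ z in {z : Z m | ‖z - (z₁ + v)‖ ≤ C₂ * (1 + ‖(Real.sqrt R)⁻¹ • v‖) * ρ ∧
          ‖bp (ctr (sR ρ) k) z - p‖ ≤ C₂ * (1 + ‖(Real.sqrt R)⁻¹ • v‖) * (T * sR ρ)},
          ‖TP β (ctr (sR ρ) k) (sR ρ) G z‖ₑ ^ 2 := by
      intro k' hk' k hk
      rw [Finset.mem_filter] at hk
      refine shift (g := fun z => ‖TP β (ctr (sR ρ) k) (sR ρ) G z‖ₑ ^ 2) (meas_V _ _ _ _ _)
        (meas_V _ _ _ _ _) v fun x hx => ?_
      refine ⟨?_, ?_⟩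
      · have e1 : x + v - (z₁ + v) = x - z₁ := by abel
        rw [e1]
        exact hx.1.trans (mul_le_mul_of_nonneg_right (two_le hC₂50 (norm_nonneg _)) hρ0.le)
      · rw [hC₂]
        exact geo hBPG hs0 hCb hb1' hb2' hT0 hsR0 hRT' (hρR.trans hRT) htm4 (hcn k hk.1)
          (hcn k' hk') hk.2 hx.1 hx.2
    refine (Finset.sum_le_sum fun k' hk' => Finset.sum_le_sum fun k hk =>
      hin k' hk' k hk).trans ?_
    refine sum_near (Ks m (sR ρ)) (fun k k' => ‖(ctr (sR ρ) k : E m) - ctr (sR ρ) k'‖ ≤ 6 * sR ρ)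
      _ _ fun k hk => ?_
    rw [← ENNReal.ofReal_natCast]
    refine ENNReal.ofReal_le_ofReal ?_
    refine (hcard (sR ρ) (6 * sR ρ) (ctr (sR ρ) k) _ hs0 (by positivity) ?_).trans (le_of_eq ?_)
    · intro k' hk'
      rw [Finset.mem_filter] at hk'
      rw [norm_sub_rev]
      exact hk'.2
    · rw [hM, mul_div_assoc, div_self hs0.ne']
      norm_num
  -- step 4
  have step4 : ∀ v : Z m,
      ENNReal.ofReal (wt ((m + 3) + (2 * m + 3) + n₁) ((Real.sqrt R)⁻¹ • v)) *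
      ∑ k ∈ Ks m (sR ρ), ∫⁻ z in {z : Z m | ‖z - (z₁ + v)‖ ≤
        C₂ * (1 + ‖(Real.sqrt R)⁻¹ • v‖) * ρ ∧
        ‖bp (ctr (sR ρ) k) z - p‖ ≤ C₂ * (1 + ‖(Real.sqrt R)⁻¹ • v‖) * (T * sR ρ)},
        ‖TP β (ctr (sR ρ) k) (sR ρ) G z‖ₑ ^ 2 ≤
      ENNReal.ofReal (K * (A ^ 2 * R ^ m * ρ ^ (3 - (m : ℝ) / 2))) *
        ENNReal.ofReal (wt (m + 3) ((Real.sqrt R)⁻¹ • v)) := by
    intro v
    have hlam : 1 ≤ C₂ * (1 + ‖(Real.sqrt R)⁻¹ • v‖) :=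
      le_trans (by norm_num) (two_le hC₂50 (norm_nonneg _))
    rw [hK]
    refine weight_bound hδ hR hρ hρR (by linarith) hCl.le hC₂1 hn₁ _ _ ?_ ?_
    · intro hyR
      refine hcvr T ρ (C₂ * (1 + ‖(Real.sqrt R)⁻¹ • v‖)) (z₁ + v) p (Ks m (sR ρ))
        (fun k => ctr (sR ρ) k) (fun k z => ‖TP β (ctr (sR ρ) k) (sR ρ) G z‖ₑ ^ 2) _ hT0
        hρ0 hlam fun z' p' hz' => ?_
      obtain ⟨e1, e2⟩ := times hBPG hR hRT hδε hε2 hδ hC₂1 (by linarith) hρ0 hρ2 ht1 ht2 hyR hz'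
      exact hbc ρ z' p' hρ hρR e1 e2
    · have h1 : ∀ x : Z m, ∑ k ∈ Ks m (sR ρ),
          mass R (fun z => ‖TP β (ctr (sR ρ) k) (sR ρ) G z‖ₑ ^ 2) x ≤
          ENNReal.ofReal (Cl * R * (A ^ 2 * R ^ (m + 2))) := by
        intro x
        have h2 := hclr κ R A G (sR ρ) 1 R 0 x (Ks m (sR ρ)) hκ (by linarith) hR hA hcls
          (inv_anti₀ hsρ0 hsρR) hs1 one_pos le_rfl hR (by simp) (by
            unfold sR
            rw [← div_eq_mul_inv, le_div_iff₀ hsρ0, one_mul]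
            refine hsρR.trans ?_
            calc Real.sqrt R ≤ Real.sqrt R * Real.sqrt R := le_mul_of_one_le_left hsR0.le hsR1
              _ = R := Real.mul_self_sqrt hR0.le) (fun k hk => by
            rw [sub_zero, mul_one]
            exact (hcn k hk).trans (le_max_left _ _))
        have h3 : pl (0 : E m) 1 R x = {z : Z m | ‖z - x‖ ≤ R} := by
          unfold pl
          simp only [Lo_id]
        rw [h3] at h2
        refine h2.trans (le_of_eq ?_)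
        congr 1
        rw [Real.rpow_one, one_pow, mul_one, div_self hR0.ne', one_pow, div_one, mul_one]
      refine (cover_ball (Ks m (sR ρ)) (R := R)
        (D₁ := C₂ * (1 + ‖(Real.sqrt R)⁻¹ • v‖) * ρ + R) hR0
        (add_pos_of_nonneg_of_pos (mul_nonneg (by linarith) hρ0.le) hR0) hgm (z₁ + v) _
        (fun k => meas_V _ _ _ _ _) (fun k z hz => by
          have := hz.1
          linarith) h1).trans ?_
      refine mul_le_mul' (ENNReal.ofReal_le_ofReal ?_) le_rfl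
      refine pow_le_pow_left₀ (div_nonneg (add_nonneg (mul_nonneg (by linarith) hρ0.le) hR0.le)
        hR0.le) ?_ _
      rw [div_le_iff₀ hR0]
      have e1 : C₂ * (1 + ‖(Real.sqrt R)⁻¹ • v‖) * ρ ≤ C₂ * (1 + ‖(Real.sqrt R)⁻¹ • v‖) * R :=
        mul_le_mul_of_nonneg_left hρR (by linarith)
      linarith
  -- the end
  have h3 : ∫⁻ v : Z m, ENNReal.ofReal (wt (m + 3) ((Real.sqrt R)⁻¹ • v)) ≤
      ENNReal.ofReal Cw * ENNReal.ofReal ((Real.sqrt R) ^ (m + 2)) := by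
    have h3 := hCw ((Real.sqrt R)⁻¹) 0 (inv_pos.mpr hsR0)
    rw [inv_inv] at h3
    simp only [sub_zero] at h3
    rwa [ENNReal.ofReal_coe_nnreal]
  have hfin := step2.trans (last_int (by positivity) hM0.le (by positivity) Cw.2
    (wcont3.comp (continuous_const_smul _)) step3 step4 h3)
  refine (vol_step hsR0 hfin).trans (ENNReal.ofReal_le_ofReal ?_)
  rw [← hω]
  calc C0 * R ^ δ' * (M * (K * (A ^ 2 * R ^ m * ρ ^ (3 - (m : ℝ) / 2))) * Cw) / ω =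
      Kf * (R ^ δ' * (A ^ 2 * R ^ m * ρ ^ (3 - (m : ℝ) / 2))) := by
        rw [hKf]
        ring
    _ ≤ ((C0 + Kf) + (8 * C₂ + 2)) * (R ^ δ' * (A ^ 2 * R ^ m * ρ ^ (3 - (m : ℝ) / 2))) := by
        refine mul_le_mul_of_nonneg_right ?_ (by positivity)
        linarith
    _ = _ := by ring

end Pool.Agent.H39.HDS
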