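import Pool.Agent.H82.HD.TA

/-!
# hds_modules, row BCS: lemmas
-/

set_option autoImplicit false

namespace Pool.Agent.H39.HDS

open MeasureTheory Set
open Pool.Agent.H83.G Pool.Agent.H82.HD
open Pool.Agent.H22.G (co)
open scoped ENNReal NNReal RealInnerProductSpace

variable {m : ℕ}

theorem finrank_Z (m : ℕ) : Module.finrank ℝ (Z m) = m + 2 := by
  unfold Z
  rw [Module.finrank_prod, Module.finrank_prod, Module.finrank_self]
  have : Module.finrank ℝ (E m) = m := finrank_euclideanSpace_fin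
  rw [this]
  omega

theorem haar_Z (m : ℕ) : (volume : Measure (Z m)).IsAddHaarMeasure := by
  have h1 : (volume : Measure (E m × ℝ)).IsAddHaarMeasure :=
    Measure.prod.instIsAddHaarMeasure (volume : Measure (E m)) (volume : Measure ℝ)
  exact Measure.prod.instIsAddHaarMeasure (volume : Measure ℝ) (volume : Measure (E m × ℝ))

theorem meas_TP {β : E m → ℂ} (hβ : Continuous β) (η : E m) (s : ℝ) {G : Z m → ℂ}
    (hG : Continuous G) : Measurable (fun z => ‖TP β η s G z‖ₑ ^ 2) := by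
  have he : Continuous e := by
    unfold e
    fun_prop
  have hph : Continuous (fun p : Z m × Z m => ph p.1 p.2) := by
    unfold ph
    fun_prop
  have hcp : Measurable (cp β η s) := by
    unfold cp
    refine hβ.measurable.comp ?_
    refine Measurable.const_smul ?_ s⁻¹
    refine Measurable.sub_const ?_ η
    exact (measurable_fst.inv).smul (measurable_fst.comp measurable_snd)
  have h1 : StronglyMeasurable (fun z : Z m => TP β η s G z) := by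
    have h2 : Measurable (Function.uncurry fun (z ζ : Z m) => e (ph z ζ) * (cp β η s ζ * G ζ)) := by
      refine Measurable.mul ?_ ?_
      · exact (he.comp hph).measurable
      · exact (hcp.comp measurable_snd).mul (hG.measurable.comp measurable_snd)
    exact h2.stronglyMeasurable.integral_prod_right
  exact h1.measurable.enorm.pow_const 2

/-- local mass -/
noncomputable def mass (t : ℝ) (F : Z m → ℝ≥0∞) (x : Z m) : ℝ≥0∞ :=
  ∫⁻ z in {z : Z m | ‖z - x‖ ≤ t}, F z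

theorem meas_ball (t : ℝ) (x : Z m) : MeasurableSet {z : Z m | ‖z - x‖ ≤ t} :=
  (isClosed_le (continuous_id.sub continuous_const).norm continuous_const).measurableSet

theorem mass_eq (t : ℝ) (F : Z m → ℝ≥0∞) (x : Z m) :
    mass t F x = ∫⁻ z, ({u : Z m | ‖u‖ ≤ t}.indicator (fun _ => (1 : ℝ≥0∞)) (z - x)) * F z := by
  unfold mass
  rw [← lintegral_indicator (meas_ball t x)]
  refine lintegral_congr fun z => ?_
  by_cases hz : ‖z - x‖ ≤ t
  · rw [Set.indicator_of_mem (show z ∈ {z : Z m | ‖z - x‖ ≤ t} from hz),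
      Set.indicator_of_mem (show z - x ∈ {u : Z m | ‖u‖ ≤ t} from hz), one_mul]
  · rw [Set.indicator_of_notMem (show z ∉ {z : Z m | ‖z - x‖ ≤ t} from hz),
      Set.indicator_of_notMem (show z - x ∉ {u : Z m | ‖u‖ ≤ t} from hz), zero_mul]

theorem meas_I (t : ℝ) :
    Measurable ({u : Z m | ‖u‖ ≤ t}.indicator (fun _ => (1 : ℝ≥0∞))) :=
  measurable_const.indicator (isClosed_le continuous_norm continuous_const).measurableSet

theorem meas_mass (t : ℝ) {F : Z m → ℝ≥0∞} (hF : Measurable F) : Measurable (mass t F) := by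
  have h : mass t F = fun x => ∫⁻ z, ({u : Z m | ‖u‖ ≤ t}.indicator (fun _ => (1 : ℝ≥0∞)) (z - x)) *
      F z := by
    funext x
    exact mass_eq t F x
  rw [h]
  refine Measurable.lintegral_prod_right' (f := fun p : Z m × Z m =>
    ({u : Z m | ‖u‖ ≤ t}.indicator (fun _ => (1 : ℝ≥0∞)) (p.2 - p.1)) * F p.2) ?_
  exact ((meas_I t).comp (measurable_snd.sub measurable_fst)).mul (hF.comp measurable_snd)

theorem avg (t : ℝ) {F : Z m → ℝ≥0∞} (hF : Measurable F) {Ω Ωp : Set (Z m)}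
    (hΩ : MeasurableSet Ω) (hp : MeasurableSet Ωp) (h : ∀ z ∈ Ω, ∀ x, ‖z - x‖ ≤ t → x ∈ Ωp) :
    volume (Metric.closedBall (0 : Z m) t) * ∫⁻ z in Ω, F z ≤ ∫⁻ x in Ωp, mass t F x := by
  have := haar_Z m
  set I : Z m → ℝ≥0∞ := {u : Z m | ‖u‖ ≤ t}.indicator (fun _ => (1 : ℝ≥0∞)) with hI
  have hIm : Measurable I := meas_I t
  have h1 : ∫⁻ x in Ωp, mass t F x = ∫⁻ x in Ωp, ∫⁻ z, I (z - x) * F z :=
    lintegral_congr fun x => mass_eq t F x
  have hm : Measurable (Function.uncurry fun (x z : Z m) => I (z - x) * F z) :=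
    (hIm.comp (measurable_snd.sub measurable_fst)).mul (hF.comp measurable_snd)
  rw [h1, lintegral_lintegral_swap hm.aemeasurable]
  rw [← lintegral_const_mul _ hF]
  refine le_trans ?_ (setLIntegral_le_lintegral Ω _)
  refine setLIntegral_mono' hΩ fun z hz => ?_
  have h2 : ∫⁻ x in Ωp, I (z - x) * F z = (∫⁻ x in Ωp, I (z - x)) * F z := by
    rw [lintegral_mul_const]
    exact hIm.comp (measurable_const.sub measurable_id)
  rw [h2]
  refine mul_le_mul' ?_ le_rfl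
  rw [← Measure.addHaar_closedBall_center volume z t, ← setLIntegral_one]
  rw [← lintegral_indicator Metric.isClosed_closedBall.measurableSet, ← lintegral_indicator hp]
  refine lintegral_mono fun x => ?_
  by_cases hx : x ∈ Metric.closedBall z t
  · have hx' : ‖z - x‖ ≤ t := by
      rw [Metric.mem_closedBall, dist_eq_norm] at hx
      rwa [norm_sub_rev]
    rw [Set.indicator_of_mem hx, Set.indicator_of_mem (h z hz x hx'), hI,
      Set.indicator_of_mem (show z - x ∈ {u : Z m | ‖u‖ ≤ t} from hx')]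
  · rw [Set.indicator_of_notMem hx]
    exact zero_le

theorem vol_cb {t : ℝ} (ht : 0 ≤ t) : volume (Metric.closedBall (0 : Z m) t) =
    ENNReal.ofReal (t ^ (m + 2)) * volume (Metric.closedBall (0 : Z m) 1) := by
  have := haar_Z m
  rw [Measure.addHaar_closedBall' _ _ ht, finrank_Z]

theorem cont_bp (η : E m) : Continuous (bp η : Z m → ℝ × E m) := by
  unfold bp tm
  fun_prop

theorem meas_V (a b : ℝ) (η : E m) (c : Z m) (p : ℝ × E m) :
    MeasurableSet {z : Z m | ‖z - c‖ ≤ a ∧ ‖bp η z - p‖ ≤ b} := by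
  refine MeasurableSet.inter ?_ ?_
  · exact (isClosed_le (continuous_id.sub continuous_const).norm continuous_const).measurableSet
  · exact (isClosed_le ((cont_bp η).sub continuous_const).norm continuous_const).measurableSet

theorem shift {g : Z m → ℝ≥0∞} {Ωp V : Set (Z m)} (hp : MeasurableSet Ωp) (hV : MeasurableSet V)
    (v : Z m) (h : ∀ x ∈ Ωp, x + v ∈ V) : ∫⁻ x in Ωp, g (x + v) ≤ ∫⁻ z in V, g z := by
  have := haar_Z m
  rw [← lintegral_indicator hp, ← lintegral_indicator hV]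
  rw [← lintegral_add_right_eq_self (V.indicator g) v]
  refine lintegral_mono fun x => ?_
  by_cases hx : x ∈ Ωp
  · rw [Set.indicator_of_mem hx, Set.indicator_of_mem (h x hx)]
  · rw [Set.indicator_of_notMem hx]
    exact zero_le

theorem swapv {g W : Z m → ℝ≥0∞} (hg : Measurable g) (hW : Measurable W) (Ωp : Set (Z m)) :
    ∫⁻ x in Ωp, ∫⁻ z, g z * W (z - x) = ∫⁻ v, W v * ∫⁻ x in Ωp, g (x + v) := by
  have := haar_Z m
  have h1 : ∀ x : Z m, ∫⁻ z, g z * W (z - x) = ∫⁻ v, g (x + v) * W v := by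
    intro x
    rw [← lintegral_add_left_eq_self (fun z => g z * W (z - x)) x]
    refine lintegral_congr fun v => ?_
    rw [add_sub_cancel_left]
  simp_rw [h1]
  rw [lintegral_lintegral_swap]
  · refine lintegral_congr fun v => ?_
    have h2 : Measurable (fun x => g (x + v)) := hg.comp (measurable_add_const v)
    rw [lintegral_mul_const _ h2, mul_comm]
  · exact ((hg.comp (measurable_fst.add measurable_snd)).mul
      (hW.comp measurable_snd)).aemeasurable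

theorem cancel {q ω B : ℝ} {X : ℝ≥0∞} (hq : 0 < q) (hω : 0 < ω)
    (h : ENNReal.ofReal q * ENNReal.ofReal ω * X ≤ ENNReal.ofReal (B * q)) :
    X ≤ ENNReal.ofReal (B / ω) := by
  have h1 : X = ENNReal.ofReal ((q * ω)⁻¹) * (ENNReal.ofReal q * ENNReal.ofReal ω * X) := by
    rw [← mul_assoc, ← ENNReal.ofReal_mul hq.le, ← ENNReal.ofReal_mul (by positivity),
      inv_mul_cancel₀ (by positivity), ENNReal.ofReal_one, one_mul]
  rw [h1]
  refine (mul_le_mul' le_rfl h).trans (le_of_eq ?_)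
  rw [← ENNReal.ofReal_mul (by positivity)]
  congr 1
  field_simp

theorem Lo_id (z : Z m) : Lo 0 1 z = z := by
  unfold Lo
  ext <;> simp

theorem sum_near {ι : Type} (I : Finset ι) (P : ι → ι → Prop) [∀ i j, Decidable (P i j)]
    (a : ι → ℝ≥0∞) (M : ℝ≥0∞) (h : ∀ k ∈ I, ((I.filter (fun k' => P k k')).card : ℝ≥0∞) ≤ M) :
    ∑ k' ∈ I, ∑ k ∈ I.filter (fun k => P k k'), a k ≤ M * ∑ k ∈ I, a k := by
  simp_rw [Finset.sum_filter]
  rw [Finset.sum_comm, Finset.mul_sum]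
  refine Finset.sum_le_sum fun k hk => ?_
  rw [← Finset.sum_filter, Finset.sum_const, nsmul_eq_mul]
  exact mul_le_mul' (h k hk) le_rfl

/-- the pointwise bound for the weighted mass, both ranges -/
theorem weight_bound {δ R ρ K₁ K₂ C₂ A : ℝ} {n₁ : ℕ} (hδ : 0 < δ) (hR : 1 ≤ R) (hρ : 1 ≤ ρ)
    (hρR : ρ ≤ R) (hK₁ : 0 ≤ K₁) (hK₂ : 0 ≤ K₂) (hC₂ : 1 ≤ C₂) (hn₁ : ((m : ℝ) + 6) / δ ≤ n₁)
    (y : Z m) (Φ : ℝ≥0∞)
    (h1 : ‖y‖ ≤ R ^ δ → Φ ≤ ENNReal.ofReal (K₁ * (C₂ * (1 + ‖y‖)) ^ (2 * m + 3)) *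
      ENNReal.ofReal (A ^ 2 * R ^ m * ρ ^ (3 - (m : ℝ) / 2)))
    (h2 : Φ ≤ ENNReal.ofReal ((C₂ * (1 + ‖y‖) + 1) ^ (m + 2)) *
      ENNReal.ofReal (K₂ * R * (A ^ 2 * R ^ (m + 2)))) :
    ENNReal.ofReal (wt ((m + 3) + (2 * m + 3) + n₁) y) * Φ ≤
      ENNReal.ofReal ((K₁ * C₂ ^ (2 * m + 3) + K₂ * (C₂ + 1) ^ (m + 2)) *
        (A ^ 2 * R ^ m * ρ ^ (3 - (m : ℝ) / 2))) * ENNReal.ofReal (wt (m + 3) y) := by
  set t : ℝ := 1 + ‖y‖ with ht
  have ht1 : 1 ≤ t := by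
    have := norm_nonneg y
    linarith
  have hR0 : 0 < R := by linarith
  have hρ0 : 0 < ρ := by linarith
  set X : ℝ := A ^ 2 * R ^ m * ρ ^ (3 - (m : ℝ) / 2) with hX
  have hX0 : 0 ≤ X := by positivity
  have hw : ∀ n : ℕ, wt n y = (t ^ n)⁻¹ := fun n => rfl
  have hwn : ∀ n : ℕ, 0 ≤ wt n y := fun n => by
    rw [hw]
    positivity
  by_cases hy : ‖y‖ ≤ R ^ δ
  · refine (mul_le_mul' le_rfl (h1 hy)).trans ?_
    rw [← ENNReal.ofReal_mul (by positivity), ← ENNReal.ofReal_mul (hwn _),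
      ← ENNReal.ofReal_mul (by positivity)]
    refine ENNReal.ofReal_le_ofReal ?_
    rw [hw, hw]
    have e1 : (t ^ ((m + 3) + (2 * m + 3) + n₁))⁻¹ * (K₁ * (C₂ * t) ^ (2 * m + 3) * X) =
        K₁ * C₂ ^ (2 * m + 3) * X * (t ^ (m + 3))⁻¹ * (t ^ n₁)⁻¹ := by
      rw [pow_add, pow_add, mul_pow]
      field_simp
    rw [e1]
    have e2 : (t ^ n₁)⁻¹ ≤ 1 := inv_le_one_of_one_le₀ (one_le_pow₀ ht1)
    have e3 : K₁ * C₂ ^ (2 * m + 3) * X * (t ^ (m + 3))⁻¹ * (t ^ n₁)⁻¹ ≤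
        K₁ * C₂ ^ (2 * m + 3) * X * (t ^ (m + 3))⁻¹ := mul_le_of_le_one_right (by positivity) e2
    refine e3.trans ?_
    refine mul_le_mul_of_nonneg_right ?_ (by positivity)
    refine mul_le_mul_of_nonneg_right ?_ hX0
    have : 0 ≤ K₂ * (C₂ + 1) ^ (m + 2) := by positivity
    linarith
  · have hy' : R ^ δ ≤ t := by
      have := not_le.mp hy
      linarith
    refine (mul_le_mul' le_rfl h2).trans ?_
    rw [← ENNReal.ofReal_mul (by positivity), ← ENNReal.ofReal_mul (hwn _),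
      ← ENNReal.ofReal_mul (by positivity)]
    refine ENNReal.ofReal_le_ofReal ?_
    rw [hw, hw]
    have e1 : (C₂ * t + 1) ^ (m + 2) ≤ (C₂ + 1) ^ (m + 2) * t ^ (m + 2) := by
      rw [← mul_pow]
      refine pow_le_pow_left₀ (by positivity) ?_ _
      nlinarith
    have e2 : (t ^ ((m + 3) + (2 * m + 3) + n₁))⁻¹ * (t ^ (m + 2)) * R ^ 3 ≤
        (t ^ (m + 3))⁻¹ * ρ ^ (3 - (m : ℝ) / 2) := by
      have e3 : (t ^ ((m + 3) + (2 * m + 3) + n₁))⁻¹ * (t ^ (m + 2)) * R ^ 3 =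
          (t ^ (m + 3))⁻¹ * ((t ^ (m + 1 + n₁))⁻¹ * R ^ 3) := by
        have : t ^ ((m + 3) + (2 * m + 3) + n₁) = t ^ (m + 3) * t ^ (m + 2) * t ^ (m + 1 + n₁) := by
          rw [← pow_add, ← pow_add]
          congr 1
          omega
        rw [this]
        field_simp
      rw [e3]
      refine mul_le_mul_of_nonneg_left ?_ (by positivity)
      have e4 : R ^ ((m : ℝ) / 2 + 3) ≤ t ^ (m + 1 + n₁) := by
        have h3 : R ^ ((m : ℝ) / 2 + 3) ≤ (R ^ δ) ^ (n₁ : ℝ) := by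
          rw [← Real.rpow_mul hR0.le]
          refine Real.rpow_le_rpow_of_exponent_le hR ?_
          have h4 : (m : ℝ) + 6 ≤ δ * n₁ := by
            rw [div_le_iff₀ hδ] at hn₁
            linarith
          have : (0 : ℝ) ≤ m := Nat.cast_nonneg m
          linarith
        rw [Real.rpow_natCast] at h3
        refine h3.trans ((pow_le_pow_left₀ (by positivity) hy' _).trans ?_)
        exact pow_le_pow_right₀ ht1 (by omega)
      have e5 : R ^ (-((m : ℝ) / 2)) ≤ ρ ^ (3 - (m : ℝ) / 2) := by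
        have h3 : R ^ (-((m : ℝ) / 2)) ≤ ρ ^ (-((m : ℝ) / 2)) := by
          rw [Real.rpow_neg hR0.le, Real.rpow_neg hρ0.le]
          refine inv_anti₀ (by positivity) ?_
          exact Real.rpow_le_rpow hρ0.le hρR (by positivity)
        refine h3.trans (Real.rpow_le_rpow_of_exponent_le hρ (by linarith))
      refine le_trans ?_ e5
      rw [inv_mul_le_iff₀ (by positivity)]
      calc R ^ 3 = R ^ ((m : ℝ) / 2 + 3) * R ^ (-((m : ℝ) / 2)) := by
            rw [← Real.rpow_add hR0, ← Real.rpow_natCast]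
            congr 1
            push_cast
            ring
        _ ≤ _ := mul_le_mul_of_nonneg_right e4 (by positivity)
    calc (t ^ ((m + 3) + (2 * m + 3) + n₁))⁻¹ * ((C₂ * t + 1) ^ (m + 2) *
          (K₂ * R * (A ^ 2 * R ^ (m + 2)))) ≤
        (t ^ ((m + 3) + (2 * m + 3) + n₁))⁻¹ * (((C₂ + 1) ^ (m + 2) * t ^ (m + 2)) *
          (K₂ * R * (A ^ 2 * R ^ (m + 2)))) := by gcongr
      _ = (K₂ * (C₂ + 1) ^ (m + 2) * (A ^ 2 * R ^ m)) *
          ((t ^ ((m + 3) + (2 * m + 3) + n₁))⁻¹ * (t ^ (m + 2)) * R ^ 3) := by ring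
      _ ≤ (K₂ * (C₂ + 1) ^ (m + 2) * (A ^ 2 * R ^ m)) *
          ((t ^ (m + 3))⁻¹ * ρ ^ (3 - (m : ℝ) / 2)) :=
          mul_le_mul_of_nonneg_left e2 (by positivity)
      _ = (K₂ * (C₂ + 1) ^ (m + 2) * X) * (t ^ (m + 3))⁻¹ := by
          rw [hX]
          ring
      _ ≤ _ := by
          refine mul_le_mul_of_nonneg_right ?_ (by positivity)
          refine mul_le_mul_of_nonneg_right ?_ hX0
          have : 0 ≤ K₁ * C₂ ^ (2 * m + 3) := by positivity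
          linarith

theorem step_one {ι : Type} {t : ℝ} {g' W : Z m → ℝ≥0∞} {g : ι → Z m → ℝ≥0∞} (hg' : Measurable g')
    (hg : ∀ k, Measurable (g k)) (hW : Measurable W) {Ω Ωp : Set (Z m)} (hΩ : MeasurableSet Ω)
    (hΩp : MeasurableSet Ωp) (hcov : ∀ z ∈ Ω, ∀ x, ‖z - x‖ ≤ t → x ∈ Ωp) (I₀ : ℝ≥0∞)
    (J : Finset ι) (hb : ∀ x, mass t g' x ≤ I₀ * ∑ k ∈ J, ∫⁻ z, g k z * W (z - x)) :
    volume (Metric.closedBall (0 : Z m) t) * ∫⁻ z in Ω, g' z ≤
      I₀ * ∑ k ∈ J, ∫⁻ v, W v * ∫⁻ x in Ωp, g k (x + v) := by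
  refine (avg t hg' hΩ hΩp hcov).trans ?_
  refine (lintegral_mono hb).trans (le_of_eq ?_)
  have hin : ∀ k, Measurable (fun x : Z m => ∫⁻ z, g k z * W (z - x)) := by
    intro k
    refine Measurable.lintegral_prod_right' (f := fun q : Z m × Z m => g k q.2 * W (q.2 - q.1)) ?_
    exact ((hg k).comp measurable_snd).mul (hW.comp (measurable_snd.sub measurable_fst))
  rw [lintegral_const_mul]
  · rw [lintegral_finsetSum _ (fun k _ => hin k)]
    congr 1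
    refine Finset.sum_congr rfl fun k _ => ?_
    exact swapv (hg k) hW _
  · exact Finset.measurable_sum _ (fun k _ => hin k)

theorem step_two {ι : Type} (I : Finset ι) (J : ι → Finset ι) {W : Z m → ℝ≥0∞}
    {H : ι → ι → Z m → ℝ≥0∞} (hW : Measurable W) (hH : ∀ k' k, Measurable (H k' k))
    (I₀ b : ℝ≥0∞) (f : ι → ℝ≥0∞)
    (h : ∀ k' ∈ I, b * f k' ≤ I₀ * ∑ k ∈ J k', ∫⁻ v, W v * H k' k v) :
    b * ∑ k' ∈ I, f k' ≤ I₀ * ∫⁻ v, W v * ∑ k' ∈ I, ∑ k ∈ J k', H k' k v := by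
  rw [Finset.mul_sum]
  refine (Finset.sum_le_sum h).trans (le_of_eq ?_)
  rw [← Finset.mul_sum]
  congr 1
  have hm1 : ∀ k' k, Measurable (fun v => W v * H k' k v) := fun k' k => hW.mul (hH k' k)
  have hm2 : ∀ k', Measurable (fun v => ∑ k ∈ J k', W v * H k' k v) := fun k' =>
    Finset.measurable_sum _ (fun k _ => hm1 k' k)
  have h1 : ∀ k', ∑ k ∈ J k', ∫⁻ v, W v * H k' k v = ∫⁻ v, ∑ k ∈ J k', W v * H k' k v :=
    fun k' => (lintegral_finsetSum _ (fun k _ => hm1 k' k)).symm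
  rw [Finset.sum_congr rfl (fun k' _ => h1 k'), ← lintegral_finsetSum _ (fun k' _ => hm2 k')]
  refine lintegral_congr fun v => ?_
  rw [Finset.mul_sum]
  refine Finset.sum_congr rfl fun k' _ => ?_
  rw [Finset.mul_sum]

theorem cover_ball {ι : Type} (I : Finset ι) {R D₁ : ℝ} (hR : 0 < R) (hD₁ : 0 < D₁)
    {g : ι → Z m → ℝ≥0∞} (hg : ∀ k, Measurable (g k)) (c : Z m) (V : ι → Set (Z m))
    (hV : ∀ k, MeasurableSet (V k)) (hVc : ∀ k, ∀ z ∈ V k, ‖z - c‖ + R ≤ D₁) {B : ℝ}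
    (h : ∀ x, ∑ k ∈ I, mass R (g k) x ≤ ENNReal.ofReal B) :
    ∑ k ∈ I, ∫⁻ z in V k, g k z ≤ ENNReal.ofReal ((D₁ / R) ^ (m + 2)) * ENNReal.ofReal B := by
  have := haar_Z m
  set Ω₁ : ℝ≥0∞ := volume (Metric.closedBall (0 : Z m) 1) with hΩ₁
  have hΩ0 : Ω₁ ≠ 0 := (Metric.measure_closedBall_pos volume _ one_pos).ne'
  have hΩt : Ω₁ ≠ ⊤ := measure_closedBall_lt_top.ne
  set ω : ℝ := Ω₁.toReal with hω
  have hω0 : 0 < ω := ENNReal.toReal_pos hΩ0 hΩt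
  have hωe : ENNReal.ofReal ω = Ω₁ := ENNReal.ofReal_toReal hΩt
  have h2 : volume (Metric.closedBall (0 : Z m) R) * ∑ k ∈ I, ∫⁻ z in V k, g k z ≤
      volume (Metric.closedBall c D₁) * ENNReal.ofReal B := by
    rw [Finset.mul_sum]
    have h3 : ∀ k ∈ I, volume (Metric.closedBall (0 : Z m) R) *
        ∫⁻ z in V k, g k z ≤ ∫⁻ x in Metric.closedBall c D₁, mass R (g k) x := by
      intro k _
      refine avg R (hg k) (hV k) Metric.isClosed_closedBall.measurableSet fun z hz x hx => ?_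
      rw [Metric.mem_closedBall, dist_eq_norm]
      have : x - c = (z - c) - (z - x) := by abel
      rw [this]
      refine (norm_sub_le _ _).trans ?_
      have := hVc k z hz
      linarith
    refine (Finset.sum_le_sum h3).trans ?_
    rw [← lintegral_finsetSum _ (fun k _ => meas_mass R (hg k))]
    refine (lintegral_mono h).trans (le_of_eq ?_)
    rw [setLIntegral_const, mul_comm]
  have h4 : volume (Metric.closedBall c D₁) = ENNReal.ofReal (D₁ ^ (m + 2)) * Ω₁ := by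
    rw [Measure.addHaar_closedBall_center, vol_cb hD₁.le]
  rw [h4, vol_cb hR.le, ← hΩ₁, ← hωe] at h2
  have h5 : ENNReal.ofReal (D₁ ^ (m + 2)) = ENNReal.ofReal ((D₁ / R) ^ (m + 2)) *
      ENNReal.ofReal (R ^ (m + 2)) := by
    rw [← ENNReal.ofReal_mul (by positivity), ← mul_pow, div_mul_cancel₀ _ hR.ne']
  rw [h5] at h2
  have hq : ENNReal.ofReal (R ^ (m + 2)) * ENNReal.ofReal ω ≠ 0 := by
    rw [← ENNReal.ofReal_mul (by positivity)]
    exact (ENNReal.ofReal_pos.mpr (by positivity)).ne'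
  have hqt : ENNReal.ofReal (R ^ (m + 2)) * ENNReal.ofReal ω ≠ ⊤ :=
    ENNReal.mul_ne_top ENNReal.ofReal_ne_top ENNReal.ofReal_ne_top
  refine (ENNReal.mul_le_mul_iff_right hq hqt).mp (h2.trans (le_of_eq ?_))
  ring

theorem tm_four {T s τ : ℝ} (hT : 0 < T) (hs : 0 ≤ s) (h1 : (1 / 4 + s) * T ≤ τ)
    (h2 : τ ≤ (4 - s) * T) : |τ| ≤ 4 * T := by
  have h3 : 0 ≤ s * T := by positivity
  rw [abs_le]
  constructor <;> nlinarith

theorem two_le {C y : ℝ} (hC : 50 ≤ C) (hy : 0 ≤ y) : 2 ≤ C * (1 + y) := by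
  nlinarith

theorem fifty {C y : ℝ} (hC : 1 ≤ C) (hy : 0 ≤ y) : 1 + 49 * C + C * y ≤ 50 * C * (1 + y) := by
  nlinarith

/-- geometry of back projections -/
theorem geo (hBPG : T_BPG) {T ρ Cb Cp q : ℝ} {z₁ : Z m} {p : ℝ × E m} {s : ℝ}
    (hs : 0 < s) (hCb : 1 ≤ Cb)
    (hb1 : ∀ (η : E m) (z : Z m), ‖η‖ ≤ Cp → ‖bp η z‖ ≤ Cb * ‖z‖)
    (hb2 : ∀ (η η' : E m) (z : Z m), ‖η‖ ≤ Cp → ‖η'‖ ≤ Cp →
      ‖bp η z - bp η' z‖ ≤ Cb * |tm z| * ‖η - η'‖)
    (hT : 0 < T) (hq0 : 0 < q) (hqT : q ≤ T * s) (hρT : ρ ≤ T) (htm : |tm z₁| ≤ 4 * T)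
    {c c' : E m} (hc : ‖c‖ ≤ Cp) (hc' : ‖c'‖ ≤ Cp) (hcc : ‖c - c'‖ ≤ 6 * s) {x v : Z m}
    (hx1 : ‖x - z₁‖ ≤ 2 * ρ) (hx2 : ‖bp c' x - p‖ ≤ (1 + Cb) * (T * s)) :
    ‖bp c (x + v) - p‖ ≤ 50 * Cb * (1 + ‖q⁻¹ • v‖) * (T * s) := by
  obtain ⟨lin, -, tml, -, -⟩ := hBPG m
  have hyn : 0 ≤ ‖q⁻¹ • v‖ := norm_nonneg _
  have hTs : 0 < T * s := by positivity
  have hCb0 : 0 ≤ Cb := by linarith
  have hvy : ‖v‖ = q * ‖q⁻¹ • v‖ := by
    rw [norm_smul, Real.norm_of_nonneg (by positivity)]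
    field_simp
  have h1 : bp c (x + v) - p = (bp c' x - p) + ((bp c x - bp c' x) + bp c v) := by
    rw [(lin _ x v).1]
    abel
  rw [h1]
  refine (norm_add_le _ _).trans ?_
  have h2 : ‖(bp c x - bp c' x) + bp c v‖ ≤
      48 * Cb * (T * s) + Cb * ‖q⁻¹ • v‖ * (T * s) := by
    refine (norm_add_le _ _).trans (add_le_add ?_ ?_)
    · refine (hb2 _ _ x hc hc').trans ?_
      have h3 : |tm x| ≤ 8 * T := by
        have h4 : tm x = tm z₁ + tm (x - z₁) := by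
          rw [(tml x z₁ 1).2.1]
          ring
        have h5 : |tm (x - z₁)| ≤ 2 * ‖x - z₁‖ := (tml (x - z₁) z₁ 1).2.2.2
        rw [h4]
        refine (abs_add_le _ _).trans ?_
        linarith
      calc Cb * |tm x| * ‖c - c'‖ ≤ Cb * (8 * T) * (6 * s) := by gcongr
        _ = 48 * Cb * (T * s) := by ring
    · refine (hb1 _ v hc).trans ?_
      rw [hvy]
      calc Cb * (q * ‖q⁻¹ • v‖) = Cb * ‖q⁻¹ • v‖ * q := by ring
        _ ≤ Cb * ‖q⁻¹ • v‖ * (T * s) := by gcongr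
  refine (add_le_add hx2 h2).trans ?_
  have h3 : (1 + Cb) * (T * s) + (48 * Cb * (T * s) + Cb * ‖q⁻¹ • v‖ * (T * s)) =
      (1 + 49 * Cb + Cb * ‖q⁻¹ • v‖) * (T * s) := by ring
  rw [h3]
  exact mul_le_mul_of_nonneg_right (fifty hCb hyn) hTs.le

/-- geometry: the centres stay in the range of times -/
theorem times (hBPG : T_BPG) {T ρ R C₂ ε₀ δ E₁ κ : ℝ} {z₁ v z' : Z m} (hR : 1 ≤ R) (hRT : R ≤ T)
    (hδε : 2 * δ ≤ ε₀) (hε2 : ε₀ ≤ 1 / 2) (hδ : 0 < δ) (hC₂ : 1 ≤ C₂) (hE₁ : 0 ≤ E₁)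
    (hρ0 : 0 < ρ) (hρ2 : ρ ≤ R ^ (1 - ε₀))
    (ht1 : (1 / 4 + (κ + (E₁ + (8 * C₂ + 2)) * R ^ (-δ))) * T ≤ tm z₁)
    (ht2 : tm z₁ ≤ (4 - (κ + (E₁ + (8 * C₂ + 2)) * R ^ (-δ))) * T)
    (hyR : ‖(Real.sqrt R)⁻¹ • v‖ ≤ R ^ δ)
    (hz' : ‖z' - (z₁ + v)‖ ≤ 2 * (C₂ * (1 + ‖(Real.sqrt R)⁻¹ • v‖)) * ρ) :
    (1 / 4 + κ) * T ≤ tm z' ∧ tm z' ≤ (4 - κ) * T := by
  obtain ⟨-, -, tml, -, -⟩ := hBPG m
  have hR0 : 0 < R := by linarith
  have hsR0 : 0 < Real.sqrt R := Real.sqrt_pos.mpr hR0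
  have hT0 : 0 < T := by linarith
  have hRδ : 1 ≤ R ^ δ := Real.one_le_rpow hR hδ.le
  have hC₂0 : 0 ≤ C₂ := by linarith
  have hyn : 0 ≤ ‖(Real.sqrt R)⁻¹ • v‖ := norm_nonneg _
  have hvy : ‖v‖ = Real.sqrt R * ‖(Real.sqrt R)⁻¹ • v‖ := by
    rw [norm_smul, Real.norm_of_nonneg (by positivity)]
    field_simp
  set n : ℝ := ‖(Real.sqrt R)⁻¹ • v‖ with hn
  have h5 : R ^ (1 - ε₀) * R ^ δ ≤ R ^ (-δ) * T := by
    calc R ^ (1 - ε₀) * R ^ δ = R ^ (1 - ε₀ + δ) := (Real.rpow_add hR0 _ _).symm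
      _ ≤ R ^ (-δ + 1) := Real.rpow_le_rpow_of_exponent_le hR (by linarith)
      _ = R ^ (-δ) * R := by rw [Real.rpow_add hR0, Real.rpow_one]
      _ ≤ R ^ (-δ) * T := by gcongr
  have h6 : ‖v‖ ≤ R ^ (1 - ε₀) * R ^ δ := by
    rw [hvy]
    refine mul_le_mul ?_ hyR hyn (by positivity)
    rw [Real.sqrt_eq_rpow]
    exact Real.rpow_le_rpow_of_exponent_le hR (by linarith)
  have h7 : C₂ * (1 + n) * ρ ≤ 2 * C₂ * (R ^ (1 - ε₀) * R ^ δ) := by
    calc C₂ * (1 + n) * ρ ≤ C₂ * (R ^ δ + R ^ δ) * R ^ (1 - ε₀) := by gcongr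
      _ = 2 * C₂ * (R ^ (1 - ε₀) * R ^ δ) := by ring
  have h9 : C₂ * (R ^ (1 - ε₀) * R ^ δ) ≤ C₂ * (R ^ (-δ) * T) := by gcongr
  have h1 : |tm z' - tm z₁| ≤ 8 * (C₂ * (R ^ (-δ) * T)) + 2 * (R ^ (-δ) * T) := by
    have h2 : tm z' - tm z₁ = tm (z' - (z₁ + v)) + tm v := by
      rw [(tml z' (z₁ + v) 1).2.1, (tml z₁ v 1).1]
      ring
    rw [h2]
    refine (abs_add_le _ _).trans ?_
    have h3 : |tm (z' - (z₁ + v))| ≤ 2 * ‖z' - (z₁ + v)‖ := (tml (z' - (z₁ + v)) z₁ 1).2.2.2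
    have h4 : |tm v| ≤ 2 * ‖v‖ := (tml v z₁ 1).2.2.2
    have h8 : 2 * (C₂ * (1 + n)) * ρ = 2 * (C₂ * (1 + n) * ρ) := by ring
    rw [h8] at hz'
    linarith
  rw [abs_le] at h1
  have hE : 0 ≤ E₁ * (R ^ (-δ) * T) := by positivity
  have e1 : (1 / 4 + (κ + (E₁ + (8 * C₂ + 2)) * R ^ (-δ))) * T = (1 / 4 + κ) * T +
      E₁ * (R ^ (-δ) * T) + (8 * (C₂ * (R ^ (-δ) * T)) + 2 * (R ^ (-δ) * T)) := by ring
  have e2 : (4 - (κ + (E₁ + (8 * C₂ + 2)) * R ^ (-δ))) * T = (4 - κ) * T -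
      E₁ * (R ^ (-δ) * T) - (8 * (C₂ * (R ^ (-δ) * T)) + 2 * (R ^ (-δ) * T)) := by ring
  rw [e1] at ht1
  rw [e2] at ht2
  constructor <;> linarith

end Pool.Agent.H39.HDS
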